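import Pool.Agent.H7.LP.Targets

/-!
# Row DIX of `lpg_modules`: Borel transversals of closed subgroups
-/

set_option autoImplicit false

open Set Filter Topology

namespace Pool.Agent.H3.LP

section Sel

variable {G : Type} [MetricSpace G]

/-- the set of the possible next centres -/
def PS (d : ℕ → G) (Z : Set G) (k a : ℕ) : Set ℕ :=
  {n | (Z ∩ (Metric.ball (d n) ((1 / 2) ^ (k + 1)) ∩ Metric.ball (d a) ((1 / 2) ^ k))).Nonempty}

/-- the numbers of the centres -/
noncomputable def nn (d : ℕ → G) (Z : Set G) : ℕ → ℕ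
  | 0 => sInf {n | (Z ∩ Metric.ball (d n) ((1 / 2) ^ 0)).Nonempty}
  | k + 1 => sInf (PS d Z k (nn d Z k))

theorem nn_spec {d : ℕ → G} (hd : DenseRange d) {Z : Set G} (hZ : Z.Nonempty) (k : ℕ) :
    (Z ∩ Metric.ball (d (nn d Z k)) ((1 / 2) ^ k)).Nonempty := by
  induction k with
  | zero =>
    obtain ⟨z, hz⟩ := hZ
    obtain ⟨n, hn⟩ := hd.exists_dist_lt z (ε := (1 / 2) ^ 0) (by norm_num)
    have hne : {n | (Z ∩ Metric.ball (d n) ((1 / 2) ^ 0)).Nonempty}.Nonempty :=
      ⟨n, z, hz, Metric.mem_ball.mpr hn⟩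
    exact Nat.sInf_mem hne
  | succ k ih =>
    obtain ⟨z, hz, hzb⟩ := ih
    obtain ⟨n, hn⟩ := hd.exists_dist_lt z (ε := (1 / 2) ^ (k + 1)) (by positivity)
    have hne : (PS d Z k (nn d Z k)).Nonempty := ⟨n, z, hz, Metric.mem_ball.mpr hn, hzb⟩
    obtain ⟨w, hw, hw1, -⟩ := Nat.sInf_mem hne
    exact ⟨w, hw, hw1⟩

theorem nn_step {d : ℕ → G} (hd : DenseRange d) {Z : Set G} (hZ : Z.Nonempty) (k : ℕ) :
    dist (d (nn d Z k)) (d (nn d Z (k + 1))) ≤ 2 * (1 / 2) ^ k := by
  obtain ⟨z, hz, hzb⟩ := nn_spec hd hZ k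
  obtain ⟨n, hn⟩ := hd.exists_dist_lt z (ε := (1 / 2) ^ (k + 1)) (by positivity)
  have hne : (PS d Z k (nn d Z k)).Nonempty := ⟨n, z, hz, Metric.mem_ball.mpr hn, hzb⟩
  obtain ⟨w, hw, hw1, hw2⟩ := Nat.sInf_mem hne
  have h1 : dist w (d (nn d Z (k + 1))) < (1 / 2) ^ (k + 1) := hw1
  have h2 : dist w (d (nn d Z k)) < (1 / 2) ^ k := hw2
  have h3 := dist_triangle_left (d (nn d Z k)) (d (nn d Z (k + 1))) w
  have h4 : ((1 : ℝ) / 2) ^ (k + 1) ≤ (1 / 2) ^ k :=
    pow_le_pow_of_le_one (by norm_num) (by norm_num) (Nat.le_succ k)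
  linarith

theorem exists_lim [CompleteSpace G] {d : ℕ → G} (hd : DenseRange d) {Z : Set G}
    (hZ : Z.Nonempty) (hc : IsClosed Z) :
    ∃ x ∈ Z, Tendsto (fun k => d (nn d Z k)) atTop (𝓝 x) := by
  have h1 : CauchySeq fun k => d (nn d Z k) :=
    cauchySeq_of_le_geometric (1 / 2) 2 (by norm_num) (nn_step hd hZ)
  obtain ⟨x, hx⟩ := cauchySeq_tendsto_of_complete h1
  refine ⟨x, ?_, hx⟩
  choose z hz hzb using nn_spec hd hZ
  have h2 : Tendsto (fun k => dist (d (nn d Z k)) (z k)) atTop (𝓝 0) := by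
    refine squeeze_zero (fun k => dist_nonneg) (fun k => ?_)
      (tendsto_pow_atTop_nhds_zero_of_lt_one (r := (1 / 2 : ℝ)) (by norm_num) (by norm_num))
    rw [dist_comm]
    exact (Metric.mem_ball.mp (hzb k)).le
  have h3 : Tendsto z atTop (𝓝 x) := (tendsto_iff_of_dist h2).mp hx
  exact hc.mem_of_tendsto h3 (Eventually.of_forall hz)

end Sel

/-- measurability of the first member -/
theorem meas_sInf {Ω : Type} [MeasurableSpace Ω] (E : ℕ → Set Ω) (hE : ∀ n, MeasurableSet (E n)) :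
    Measurable fun w => sInf {n | w ∈ E n} := by
  refine measurable_to_countable' fun b => ?_
  have h : (fun w => sInf {n | w ∈ E n}) ⁻¹' {b} =
      (E b ∩ ⋂ n ∈ {n | n < b}, (E n)ᶜ) ∪ ((⋂ n, (E n)ᶜ) ∩ {_w | b = 0}) := by
    ext w
    simp only [mem_preimage, mem_singleton_iff, mem_union, mem_inter_iff, mem_iInter, mem_compl_iff,
      mem_setOf_eq]
    constructor
    · intro h1
      by_cases hne : {n | w ∈ E n}.Nonempty
      · left
        have h2 := Nat.sInf_mem hne
        rw [h1] at h2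
        refine ⟨h2, fun n hn hw => ?_⟩
        have : sInf {n | w ∈ E n} ≤ n := Nat.sInf_le hw
        omega
      · right
        rw [not_nonempty_iff_eq_empty] at hne
        refine ⟨fun n hn => ?_, ?_⟩
        · have : n ∈ {n | w ∈ E n} := hn
          rw [hne] at this
          exact this
        · rw [hne, Nat.sInf_empty] at h1
          exact h1.symm
    · rintro (⟨h1, h2⟩ | ⟨h1, h2⟩)
      · apply le_antisymm
        · exact Nat.sInf_le h1
        · by_contra hlt
          push_neg at hlt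
          have h5 : ({n | w ∈ E n} : Set ℕ).Nonempty := ⟨b, h1⟩
          exact h2 _ hlt (Nat.sInf_mem h5)
      · have : {n | w ∈ E n} = ∅ := by
          ext n
          simp only [mem_setOf_eq, mem_empty_iff_false, iff_false]
          exact h1 n
        rw [this, Nat.sInf_empty, h2]
  rw [h]
  refine MeasurableSet.union ?_ ?_
  · exact (hE b).inter (MeasurableSet.biInter (to_countable _) fun n _ => (hE n).compl)
  · exact (MeasurableSet.iInter fun n => (hE n).compl).inter (MeasurableSet.const _)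

theorem pf_DIX : Pool.Agent.H7.LP.T_DIX := by
  classical
  intro G _ _ _ _ _ _ M hM
  letI := TopologicalSpace.upgradeIsCompletelyMetrizable G
  haveI : Nonempty G := ⟨1⟩
  obtain ⟨d, hd⟩ := TopologicalSpace.exists_dense_seq G
  set Z : G → Set G := fun g => {x | g⁻¹ * x ∈ M} with hZ
  have hZc : ∀ g, IsClosed (Z g) := fun g => hM.preimage (continuous_const.mul continuous_id)
  have hZn : ∀ g, (Z g).Nonempty := fun g => ⟨g, by
    show g⁻¹ * g ∈ M
    rw [inv_mul_cancel]
    exact M.one_mem⟩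
  have hZm : ∀ g, ∀ m ∈ M, Z (g * m) = Z g := by
    intro g m hm
    ext x
    show (g * m)⁻¹ * x ∈ M ↔ g⁻¹ * x ∈ M
    rw [mul_inv_rev, mul_assoc]
    exact M.mul_mem_cancel_left (M.inv_mem hm)
  have hop : ∀ U : Set G, IsOpen U → IsOpen {g | (Z g ∩ U).Nonempty} := by
    intro U hU
    have h : {g | (Z g ∩ U).Nonempty} = ⋃ m ∈ (M : Set G), (fun g => g * m) ⁻¹' U := by
      ext g
      simp only [mem_setOf_eq, mem_iUnion, mem_preimage, exists_prop, SetLike.mem_coe]
      constructor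
      · rintro ⟨x, hx, hxU⟩
        exact ⟨g⁻¹ * x, hx, by rwa [mul_inv_cancel_left]⟩
      · rintro ⟨m, hm, hmU⟩
        exact ⟨g * m, by show g⁻¹ * (g * m) ∈ M; rwa [inv_mul_cancel_left], hmU⟩
    rw [h]
    exact isOpen_biUnion fun m _ => hU.preimage (continuous_id.mul continuous_const)
  have hnn : ∀ k, Measurable fun g => nn d (Z g) k := by
    intro k
    induction k with
    | zero =>
      exact meas_sInf (fun n => {g | (Z g ∩ Metric.ball (d n) ((1 / 2) ^ 0)).Nonempty})
        fun n => (hop _ Metric.isOpen_ball).measurableSet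
    | succ k ih =>
      refine measurable_to_countable' fun b => ?_
      have h : (fun g => nn d (Z g) (k + 1)) ⁻¹' {b} =
          ⋃ a, ((fun g => nn d (Z g) k) ⁻¹' {a}) ∩
            ((fun g => sInf {n | g ∈ {g | n ∈ PS d (Z g) k a}}) ⁻¹' {b}) := by
        ext g
        simp only [mem_preimage, mem_singleton_iff, mem_iUnion, mem_inter_iff, mem_setOf_eq]
        constructor
        · intro h1
          exact ⟨nn d (Z g) k, rfl, h1⟩
        · rintro ⟨a, h1, h2⟩
          rw [← h1] at h2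
          exact h2
      rw [h]
      refine MeasurableSet.iUnion fun a => (ih (measurableSet_singleton a)).inter ?_
      refine meas_sInf (fun n => {g | n ∈ PS d (Z g) k a}) (fun n => ?_)
        (measurableSet_singleton b)
      exact (hop _ (Metric.isOpen_ball.inter Metric.isOpen_ball)).measurableSet
  choose f hfZ hf using fun Y : {Y : Set G // Y.Nonempty ∧ IsClosed Y} =>
    exists_lim hd Y.2.1 Y.2.2
  refine ⟨fun g => f ⟨Z g, hZn g, hZc g⟩, ?_, ?_, ?_⟩
  · refine measurable_of_tendsto_metrizable (f := fun k g => d (nn d (Z g) k)) (fun k => ?_) ?_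
    · exact (measurable_from_nat (f := d)).comp (hnn k)
    · rw [tendsto_pi_nhds]
      intro g
      exact hf ⟨Z g, hZn g, hZc g⟩
  · intro g
    have h1 : g⁻¹ * f ⟨Z g, hZn g, hZc g⟩ ∈ M := hfZ ⟨Z g, hZn g, hZc g⟩
    exact ⟨_, h1, by rw [mul_inv_cancel_left]⟩
  · intro g m hm
    have h1 := hZm g m hm
    show f ⟨Z (g * m), hZn (g * m), hZc (g * m)⟩ = f ⟨Z g, hZn g, hZc g⟩
    congr 1
    exact Subtype.ext h1

end Pool.Agent.H3.LP
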